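import Pool.Agent.Helper74.FP.Goals

/-!
# FP-F6: Higman's lemma for lists of Cayley graphs
-/

set_option autoImplicit false

namespace Pool.Agent.Helper34.FP

open Pool.Agent.Helper52.Wq2 Pool.Agent.Helper74.FP

universe u

/-- Pairs (group, subset). -/
structure Gp : Type (u + 1) where
  Γ : Type u
  grp : Group Γ
  S : Set Γ

/-- The graph of a pair. -/
def Gp.G (X : Gp.{u}) : SimpleGraph X.Γ := @cay X.Γ X.grp X.S

/-- Minor relation on pairs. -/
def rel (X Y : Gp.{u}) : Prop := Mn X.G Y.G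

theorem f6 : F6Stmt.{u} := by
  intro P hP k A _ S hS hPS
  have hpre : IsPreorder Gp.{u} rel :=
    { refl := fun X => Mn.refl _, trans := fun X Y Z h1 h2 => Mn.trans h1 h2 }
  let s : Set Gp.{u} := {X | @IsGen X.Γ X.grp X.S ∧ @P X.Γ X.grp X.S}
  have hs : s.PartiallyWellOrderedOn rel := by
    intro f
    obtain ⟨i, j, hij, h⟩ := @hP (fun n => (f n).1.Γ) (fun n => (f n).1.grp) (fun n => (f n).1.S)
      (fun n => (f n).2.1) (fun n => (f n).2.2)
    exact ⟨i, j, hij, h⟩
  have hl := Set.PartiallyWellOrderedOn.partiallyWellOrderedOn_sublistForall₂ rel hs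
  obtain ⟨i, j, hij, h⟩ := hl (fun n =>
    ⟨List.ofFn fun l : Fin (k n) => (⟨A n l, inferInstance, S n l⟩ : Gp.{u}), by
      intro x hx
      obtain ⟨l, rfl⟩ := (List.mem_ofFn' _ _).1 hx
      exact ⟨hS n l, hPS n l⟩⟩)
  have h : List.SublistForall₂ rel
    (List.ofFn fun l : Fin (k i) => (⟨A i l, inferInstance, S i l⟩ : Gp.{u}))
    (List.ofFn fun l : Fin (k j) => (⟨A j l, inferInstance, S j l⟩ : Gp.{u})) := h
  obtain ⟨l, h1, h2⟩ := List.sublistForall₂_iff.1 h
  obtain ⟨e, he⟩ := List.sublist_iff_exists_fin_orderEmbedding_get_eq.1 h2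
  obtain ⟨h3, h4⟩ := List.forall₂_iff_get.1 h1
  have hki : (List.ofFn fun l : Fin (k i) => (⟨A i l, inferInstance, S i l⟩ : Gp.{u})).length = k i :=
    List.length_ofFn
  have hkj : (List.ofFn fun l : Fin (k j) => (⟨A j l, inferInstance, S j l⟩ : Gp.{u})).length = k j :=
    List.length_ofFn
  have hlen : l.length = k i := h3.symm.trans hki
  refine ⟨i, j, hij, fun x => Fin.cast hkj (e (Fin.cast hlen.symm x)), ?_, ?_⟩
  · intro x y hxy
    have := e.injective (Fin.cast_injective hkj hxy)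
    exact Fin.cast_injective hlen.symm this
  · intro x
    have h5 := h4 x.1 (by rw [hki]; exact x.2) (by rw [hlen]; exact x.2)
    have h6 := he (Fin.cast hlen.symm x)
    have h7 : l.get ⟨x.1, by rw [hlen]; exact x.2⟩ = l.get (Fin.cast hlen.symm x) := rfl
    rw [h7, h6, List.get_ofFn, List.get_ofFn] at h5
    exact h5

end Pool.Agent.Helper34.FP
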